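import Pool.Agent.TTC.StmtsC

/-!
# Squad TTC, row CN2: few t with few good primes
-/

set_option autoImplicit false

namespace Pool.Agent.TTC.H49

open Polynomial Pool.Agent.TTC

/-- the set of Rankin's trick -/
def T (B : ℝ) (n : ℕ) : Set ℕ := {m : ℕ | 1 ≤ m ∧ (m : ℝ) ≤ B ∧ ∀ p : ℕ, p.Prime → p ∣ m → p ∣ n}

theorem T_finite (B : ℝ) (n : ℕ) : (T B n).Finite := by
  refine (Set.finite_Iic ⌊B⌋₊).subset ?_
  intro m hm
  exact Nat.le_floor hm.2.1

/-- the value of a polynomial of bounded size -/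
theorem eval_bound (A : ℕ) (H : ℕ) (φ : ℤ[X]) (hH : 1 ≤ H) (hS : Siz A (A * (H : ℤ) ^ A) φ)
    (t : ℤ) (ht : |t| ≤ (H : ℤ)) : |φ.eval t| ≤ ((A : ℤ) + 1) * A * (H : ℤ) ^ (2 * A) := by
  have hH1 : (1 : ℤ) ≤ (H : ℤ) := by exact_mod_cast hH
  rw [Polynomial.eval_eq_sum_range' (Nat.lt_succ_of_le hS.1)]
  refine (Finset.abs_sum_le_sum_abs _ _).trans ?_
  have h1 : ∀ i ∈ Finset.range A.succ, |φ.coeff i * t ^ i| ≤ (A : ℤ) * (H : ℤ) ^ (2 * A) := by
    intro i hi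
    have hi2 : i ≤ A := Nat.lt_succ_iff.mp (Finset.mem_range.mp hi)
    rw [abs_mul, abs_pow]
    have h2 : |t| ^ i ≤ (H : ℤ) ^ A :=
      (pow_le_pow_left₀ (abs_nonneg t) ht i).trans (pow_le_pow_right₀ hH1 hi2)
    have h3 := hS.2 i
    calc |φ.coeff i| * |t| ^ i ≤ ((A : ℤ) * (H : ℤ) ^ A) * (H : ℤ) ^ A := by
          refine mul_le_mul h3 h2 (by positivity) (by positivity)
      _ = (A : ℤ) * (H : ℤ) ^ (2 * A) := by rw [mul_assoc, ← pow_add]; ring_nf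
  refine (Finset.sum_le_sum h1).trans ?_
  rw [Finset.sum_const, Finset.card_range, nsmul_eq_mul]
  push_cast
  linarith

theorem cn2 (h1 : RnkStmt) : Cn2Stmt := by
  classical
  intro A δ hδ
  have hε : 0 < δ / 2 := by positivity
  set A' : ℝ := ((A : ℝ) + 1) * A + 2 * A + δ / 2 with hA'
  have hA0 : (0 : ℝ) ≤ (A : ℝ) := Nat.cast_nonneg A
  have hA'pos : 0 < A' := by positivity
  obtain ⟨C0, hC0, hR⟩ := h1 A' (δ / 2) hA'pos hε
  refine ⟨δ / 2, A + 2 * A * C0 + 1, hε, by positivity, ?_⟩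
  intro H φ n₀ hH hdeg hS hn0 hn0b
  have hH1 : (1 : ℝ) ≤ (H : ℝ) := by exact_mod_cast hH
  have hH0 : (0 : ℝ) < (H : ℝ) := by linarith
  set B : ℝ := A' * (H : ℝ) ^ A' with hBdef
  set R : ℕ := ⌊(H : ℝ) ^ (δ / 2)⌋₊ with hRdef
  have hHe : (0 : ℝ) ≤ (H : ℝ) ^ (δ / 2) := by positivity
  -- bounds
  have hpoly : ∀ t : ℤ, |t| ≤ (H : ℤ) → ((φ.eval t).natAbs : ℝ) ≤ B := by
    intro t ht
    have h2 := eval_bound A H φ hH hS t ht
    have h3 : ((φ.eval t).natAbs : ℝ) ≤ ((A : ℝ) + 1) * A * (H : ℝ) ^ (2 * A) := by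
      rw [Nat.cast_natAbs, Int.cast_abs]
      exact_mod_cast h2
    refine h3.trans ?_
    have h4 : (H : ℝ) ^ (2 * A) ≤ (H : ℝ) ^ A' := by
      rw [← Real.rpow_natCast]
      refine Real.rpow_le_rpow_of_exponent_le hH1 ?_
      push_cast
      nlinarith
    have h5 : ((A : ℝ) + 1) * A ≤ A' := by
      rw [hA']; nlinarith
    exact mul_le_mul h5 h4 (by positivity) hA'pos.le
  have hn0b' : (n₀ : ℝ) ≤ A * (H : ℝ) ^ (A : ℝ) := by
    rw [Real.rpow_natCast]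
    exact_mod_cast hn0b
  -- the Finsets
  have hφ0 : ∀ m : ℤ, φ - C m ≠ 0 := by
    intro m h
    have h2 := congrArg natDegree h
    rw [natDegree_sub_C, natDegree_zero] at h2
    omega
  let D : ℤ → Finset ℤ := fun m => (φ - C m).roots.toFinset
  have hDcard : ∀ m, (D m).card ≤ A := by
    intro m
    refine (Multiset.toFinset_card_le _).trans ((card_roots' _).trans ?_)
    rw [natDegree_sub_C]
    exact hS.1
  have hDmem : ∀ t : ℤ, ∀ m : ℤ, φ.eval t = m → t ∈ D m := by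
    intro t m h
    simp only [D, Multiset.mem_toFinset]
    rw [mem_roots (hφ0 m), IsRoot.def, eval_sub, eval_C, h, sub_self]
  let TT : ℕ → Finset ℕ := fun r => (T_finite B (n₀ * r)).toFinset
  let U : Finset ℤ := D 0 ∪ (Finset.Icc 1 R).biUnion
    (fun r => (TT r).biUnion (fun m => D (m : ℤ) ∪ D (-(m : ℤ))))
  have hsub : {t : ℤ | |t| ≤ (H : ℤ) ∧ (φ.eval t = 0 ∨
      ((∏ p ∈ (φ.eval t).natAbs.primeFactors.filter (fun p => ¬ p ∣ n₀), p : ℕ) : ℝ)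
        < (H : ℝ) ^ (δ / 2))} ⊆ (U : Set ℤ) := by
    intro t ht
    obtain ⟨ht1, ht2⟩ := ht
    rw [Finset.mem_coe]
    by_cases h0 : φ.eval t = 0
    · exact Finset.mem_union_left _ (hDmem t 0 h0)
    · rcases ht2 with ht2 | ht2
      · exact absurd ht2 h0
      refine Finset.mem_union_right _ ?_
      rw [Finset.mem_biUnion]
      set r : ℕ := ∏ p ∈ (φ.eval t).natAbs.primeFactors.filter (fun p => ¬ p ∣ n₀), p with hr
      have hr1 : 1 ≤ r := by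
        refine Nat.one_le_iff_ne_zero.mpr ?_
        rw [hr, Finset.prod_ne_zero_iff]
        intro p hp
        have h4 := (Finset.mem_filter.mp hp).1
        exact (Nat.prime_of_mem_primeFactors h4).ne_zero
      have hrR : r ≤ R := Nat.le_floor ht2.le
      refine ⟨r, Finset.mem_Icc.mpr ⟨hr1, hrR⟩, ?_⟩
      rw [Finset.mem_biUnion]
      refine ⟨(φ.eval t).natAbs, ?_, ?_⟩
      · simp only [TT, Set.Finite.mem_toFinset]
        refine ⟨Nat.one_le_iff_ne_zero.mpr (Int.natAbs_ne_zero.mpr h0), hpoly t ht1, ?_⟩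
        intro p hp hpd
        by_cases hpw : p ∣ n₀
        · exact Dvd.dvd.mul_right hpw r
        · refine Dvd.dvd.mul_left ?_ n₀
          rw [hr]
          refine Finset.dvd_prod_of_mem _ ?_
          refine Finset.mem_filter.mpr ⟨?_, hpw⟩
          exact Nat.mem_primeFactors.mpr ⟨hp, hpd, Int.natAbs_ne_zero.mpr h0⟩
      · rcases Int.natAbs_eq (φ.eval t) with h4 | h4
        · exact Finset.mem_union_left _ (hDmem t _ h4)
        · exact Finset.mem_union_right _ (hDmem t _ h4)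
  have hTT : ∀ r ∈ Finset.Icc 1 R, ((TT r).card : ℝ) ≤ C0 * (H : ℝ) ^ (δ / 2) := by
    intro r hr
    obtain ⟨hr1, hr2⟩ := Finset.mem_Icc.mp hr
    have hn1 : 1 ≤ n₀ * r := Nat.one_le_iff_ne_zero.mpr (Nat.mul_ne_zero (by omega) (by omega))
    have hrr : (r : ℝ) ≤ (H : ℝ) ^ (δ / 2) := by
      have h4 : (R : ℝ) ≤ (H : ℝ) ^ (δ / 2) := Nat.floor_le hHe
      have h5 : (r : ℝ) ≤ (R : ℝ) := by exact_mod_cast hr2
      linarith
    have hn2 : ((n₀ * r : ℕ) : ℝ) ≤ B := by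
      push_cast
      have hAA : (0 : ℝ) ≤ A * (H : ℝ) ^ (A : ℝ) := by positivity
      calc (n₀ : ℝ) * (r : ℝ) ≤ (A * (H : ℝ) ^ (A : ℝ)) * (H : ℝ) ^ (δ / 2) :=
            mul_le_mul hn0b' hrr (Nat.cast_nonneg _) hAA
        _ = A * (H : ℝ) ^ ((A : ℝ) + δ / 2) := by rw [mul_assoc, ← Real.rpow_add hH0]
        _ ≤ A' * (H : ℝ) ^ A' := by
            refine mul_le_mul ?_ ?_ (by positivity) hA'pos.le
            · rw [hA']; nlinarith
            · refine Real.rpow_le_rpow_of_exponent_le hH1 ?_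
              rw [hA']; nlinarith
    have h4 := hR H (n₀ * r) hH hn1 hn2
    have h5 : (T B (n₀ * r)).ncard = (TT r).card := Set.ncard_eq_toFinset_card _ (T_finite B (n₀ * r))
    have h6 : ((T B (n₀ * r)).ncard : ℝ) ≤ C0 * (H : ℝ) ^ (δ / 2) := h4
    rwa [h5] at h6
  have hcardU : ((U.card : ℕ) : ℝ) ≤ (A + 2 * A * C0 + 1) * (H : ℝ) ^ δ := by
    have h4 : U.card ≤ A + ∑ r ∈ Finset.Icc 1 R, (TT r).card * (2 * A) := by
      refine (Finset.card_union_le _ _).trans ?_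
      refine Nat.add_le_add (hDcard 0) ?_
      refine Finset.card_biUnion_le.trans ?_
      refine Finset.sum_le_sum fun r _ => ?_
      refine Finset.card_biUnion_le.trans ?_
      have h5 : ∑ m ∈ TT r, (D (m : ℤ) ∪ D (-(m : ℤ))).card ≤ ∑ m ∈ TT r, (2 * A) := by
        refine Finset.sum_le_sum fun m _ => ?_
        refine (Finset.card_union_le _ _).trans ?_
        have h6 := hDcard (m : ℤ)
        have h7 := hDcard (-(m : ℤ))
        omega
      rwa [Finset.sum_const, smul_eq_mul] at h5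
    have h5 : ((U.card : ℕ) : ℝ) ≤ A + ∑ r ∈ Finset.Icc 1 R, ((TT r).card : ℝ) * (2 * A) := by
      exact_mod_cast h4
    have h6 : ∑ r ∈ Finset.Icc 1 R, ((TT r).card : ℝ) * (2 * A) ≤
        ∑ r ∈ Finset.Icc 1 R, (C0 * (H : ℝ) ^ (δ / 2)) * (2 * A) := by
      refine Finset.sum_le_sum fun r hr => ?_
      exact mul_le_mul_of_nonneg_right (hTT r hr) (by positivity)
    rw [Finset.sum_const, Nat.card_Icc, nsmul_eq_mul] at h6
    have h7 : ((R + 1 - 1 : ℕ) : ℝ) ≤ (H : ℝ) ^ (δ / 2) := by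
      rw [Nat.add_sub_cancel]
      exact Nat.floor_le hHe
    have h8 : (H : ℝ) ^ (δ / 2) * (H : ℝ) ^ (δ / 2) = (H : ℝ) ^ δ := by
      rw [← Real.rpow_add hH0]
      congr 1
      ring
    have h9 : (1 : ℝ) ≤ (H : ℝ) ^ δ := Real.one_le_rpow hH1 hδ.le
    have h10 : ((R + 1 - 1 : ℕ) : ℝ) * (C0 * (H : ℝ) ^ (δ / 2) * (2 * A)) ≤
        (H : ℝ) ^ (δ / 2) * (C0 * (H : ℝ) ^ (δ / 2) * (2 * A)) := by gcongr
    have h11 : (H : ℝ) ^ (δ / 2) * (C0 * (H : ℝ) ^ (δ / 2) * (2 * A)) = 2 * A * C0 * (H : ℝ) ^ δ := by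
      rw [← h8]; ring
    have h12 : (A : ℝ) ≤ A * (H : ℝ) ^ δ := le_mul_of_one_le_right hA0 h9
    have h13 : (0 : ℝ) ≤ (H : ℝ) ^ δ := by linarith
    calc ((U.card : ℕ) : ℝ) ≤ A * (H : ℝ) ^ δ + 2 * A * C0 * (H : ℝ) ^ δ := by linarith
      _ ≤ (A + 2 * A * C0 + 1) * (H : ℝ) ^ δ := by linarith
  have hfin : ({t : ℤ | |t| ≤ (H : ℤ) ∧ (φ.eval t = 0 ∨
      ((∏ p ∈ (φ.eval t).natAbs.primeFactors.filter (fun p => ¬ p ∣ n₀), p : ℕ) : ℝ)
        < (H : ℝ) ^ (δ / 2))}).ncard ≤ U.card := by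
    have h4 := Set.ncard_le_ncard hsub (Finset.finite_toSet U)
    rwa [Set.ncard_coe_finset] at h4
  have h12 : (({t : ℤ | |t| ≤ (H : ℤ) ∧ (φ.eval t = 0 ∨
      ((∏ p ∈ (φ.eval t).natAbs.primeFactors.filter (fun p => ¬ p ∣ n₀), p : ℕ) : ℝ)
        < (H : ℝ) ^ (δ / 2))}).ncard : ℝ) ≤ (U.card : ℝ) := by
    exact_mod_cast hfin
  exact h12.trans hcardU

end Pool.Agent.TTC.H49
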