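import Pool.Agent.TTC.StmtsE

/-!
# Squad TTC, row SB2: total degree of the substitution
-/

set_option autoImplicit false

namespace Pool.Agent.TTC.H49

open Polynomial Pool.Agent.TTC

theorem TD_mono {m N N' : ℕ} {P : (MvPolynomial (Fin m) ℂ)[X]} (h : TD N P) (hN : N ≤ N') :
    TD N' P := fun j hj => (h j hj).trans hN

theorem TD_zero {m : ℕ} (N : ℕ) : TD N (0 : (MvPolynomial (Fin m) ℂ)[X]) := by
  intro j hj
  exact absurd (coeff_zero j) hj

theorem TD_C {m : ℕ} (r : ℂ) : TD 0 (C (MvPolynomial.C r) : (MvPolynomial (Fin m) ℂ)[X]) := by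
  intro j hj
  rw [coeff_C] at hj ⊢
  by_cases h : j = 0
  · rw [if_pos h, MvPolynomial.totalDegree_C, h]
  · rw [if_neg h] at hj
    exact absurd rfl hj

theorem TD_X {m : ℕ} : TD 1 (X : (MvPolynomial (Fin m) ℂ)[X]) := by
  intro j hj
  rw [coeff_X] at hj ⊢
  by_cases h : 1 = j
  · rw [if_pos h, MvPolynomial.totalDegree_one, ← h]
  · rw [if_neg h] at hj
    exact absurd rfl hj

theorem TD_CX {m : ℕ} (i : Fin m) :
    TD 1 (C (MvPolynomial.X i) : (MvPolynomial (Fin m) ℂ)[X]) := by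
  intro j hj
  rw [coeff_C] at hj ⊢
  by_cases h : j = 0
  · rw [if_pos h, MvPolynomial.totalDegree_X, h]
  · rw [if_neg h] at hj
    exact absurd rfl hj

theorem TD_add {m N : ℕ} {P Q : (MvPolynomial (Fin m) ℂ)[X]} (hP : TD N P) (hQ : TD N Q) :
    TD N (P + Q) := by
  intro j hj
  rw [coeff_add] at hj ⊢
  by_cases h1 : P.coeff j = 0
  · rw [h1, zero_add] at hj ⊢
    exact hQ j hj
  · by_cases h2 : Q.coeff j = 0
    · rw [h2, add_zero] at hj ⊢
      exact hP j hj
    · have h3 := MvPolynomial.totalDegree_add (P.coeff j) (Q.coeff j)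
      have h4 := hP j h1
      have h5 := hQ j h2
      have h6 : max (P.coeff j).totalDegree (Q.coeff j).totalDegree ≤ N - j :=
        max_le (by omega) (by omega)
      omega

theorem TD_mul {m N M : ℕ} {P Q : (MvPolynomial (Fin m) ℂ)[X]} (hP : TD N P) (hQ : TD M Q) :
    TD (N + M) (P * Q) := by
  intro j hj
  rw [coeff_mul] at hj ⊢
  obtain ⟨x, hx, hx0⟩ := Finset.exists_ne_zero_of_sum_ne_zero hj
  have hx1 := Finset.HasAntidiagonal.mem_antidiagonal.mp hx
  have a1 := hP x.1 (left_ne_zero_of_mul hx0)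
  have a2 := hQ x.2 (right_ne_zero_of_mul hx0)
  have hj2 : j ≤ N + M := by omega
  have h1 : ∀ y ∈ Finset.HasAntidiagonal.antidiagonal j,
      (P.coeff y.1 * Q.coeff y.2).totalDegree ≤ N + M - j := by
    intro y hy
    have hy1 := Finset.HasAntidiagonal.mem_antidiagonal.mp hy
    by_cases h2 : P.coeff y.1 = 0
    · rw [h2, zero_mul, MvPolynomial.totalDegree_zero]; exact Nat.zero_le _
    · by_cases h3 : Q.coeff y.2 = 0
      · rw [h3, mul_zero, MvPolynomial.totalDegree_zero]; exact Nat.zero_le _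
      · have h4 := hP y.1 h2
        have h5 := hQ y.2 h3
        have h6 := MvPolynomial.totalDegree_mul (P.coeff y.1) (Q.coeff y.2)
        omega
  have h2 := MvPolynomial.totalDegree_finsetSum_le h1
  omega

theorem TD_pow {m N : ℕ} {P : (MvPolynomial (Fin m) ℂ)[X]} (hP : TD N P) (k : ℕ) :
    TD (k * N) (P ^ k) := by
  induction k with
  | zero =>
    rw [pow_zero, zero_mul]
    have h : (1 : (MvPolynomial (Fin m) ℂ)[X]) = C (MvPolynomial.C 1) := by simp
    rw [h]
    exact TD_C 1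
  | succ k ih =>
    rw [pow_succ, Nat.succ_mul]
    exact TD_mul ih hP

theorem TD_sum {m N : ℕ} {ι : Type} (s : Finset ι) (f : ι → (MvPolynomial (Fin m) ℂ)[X])
    (h : ∀ i ∈ s, TD N (f i)) : TD N (∑ i ∈ s, f i) := by
  classical
  induction s using Finset.induction_on with
  | empty => rw [Finset.sum_empty]; exact TD_zero N
  | insert i s hi ih =>
    rw [Finset.sum_insert hi]
    exact TD_add (h i (Finset.mem_insert_self i s))
      (ih fun j hj => h j (Finset.mem_insert_of_mem hj))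

theorem TD_prod {m : ℕ} {ι : Type} (s : Finset ι) (f : ι → (MvPolynomial (Fin m) ℂ)[X]) (e : ι → ℕ)
    (h : ∀ i ∈ s, TD (e i) (f i)) : TD (∑ i ∈ s, e i) (∏ i ∈ s, f i) := by
  classical
  induction s using Finset.induction_on with
  | empty =>
    rw [Finset.sum_empty, Finset.prod_empty]
    have h : (1 : (MvPolynomial (Fin m) ℂ)[X]) = C (MvPolynomial.C 1) := by simp
    rw [h]
    exact TD_C 1
  | insert i s hi ih =>
    rw [Finset.sum_insert hi, Finset.prod_insert hi]
    exact TD_mul (h i (Finset.mem_insert_self i s))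
      (ih fun j hj => h j (Finset.mem_insert_of_mem hj))

theorem TD_pt {m : ℕ} (i₀ : Fin (m + 1)) (a : Fin m → ℕ) (i : Fin (m + 1)) :
    TD 1 (pt i₀ a (X : (MvPolynomial (Fin m) ℂ)[X]) (fun j => C (MvPolynomial.X j)) i) := by
  rcases Fin.eq_self_or_eq_succAbove i₀ i with h | ⟨j, h⟩
  · rw [h]
    unfold pt
    rw [Fin.insertNth_apply_same]
    exact TD_X
  · rw [h]
    unfold pt
    rw [Fin.insertNth_apply_succAbove]
    refine TD_add (TD_CX j) ?_
    have h2 : ((a j : ℕ) : (MvPolynomial (Fin m) ℂ)[X]) = C (MvPolynomial.C ((a j : ℕ) : ℂ)) := by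
      simp
    rw [h2]
    have h3 := TD_mul (TD_C (m := m) ((a j : ℕ) : ℂ)) TD_X
    rwa [zero_add] at h3

theorem sb2 : Sb2Stmt := by
  classical
  intro m N i₀ a P hP
  conv_rhs => rw [MvPolynomial.as_sum P]
  rw [map_sum]
  refine TD_sum _ _ ?_
  intro v hv
  have h1 : (v.sum fun _ e => e) ≤ N := (MvPolynomial.le_totalDegree hv).trans hP
  unfold sub
  rw [MvPolynomial.aeval_monomial]
  have h2 : (algebraMap ℂ (MvPolynomial (Fin m) ℂ)[X]) (MvPolynomial.coeff v P)
      = C (MvPolynomial.C (MvPolynomial.coeff v P)) := by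
    rw [Polynomial.algebraMap_apply]
    rfl
  rw [h2]
  have h3 : TD (∑ i ∈ v.support, v i * 1) (v.prod fun i k =>
      pt i₀ a (X : (MvPolynomial (Fin m) ℂ)[X]) (fun j => C (MvPolynomial.X j)) i ^ k) := by
    unfold Finsupp.prod
    exact TD_prod _ _ _ fun i _ => TD_pow (TD_pt i₀ a i) (v i)
  have h4 := TD_mul (TD_C (m := m) (MvPolynomial.coeff v P)) h3
  refine TD_mono h4 ?_
  rw [zero_add]
  refine le_trans (le_of_eq ?_) h1
  unfold Finsupp.sum
  simp

end Pool.Agent.TTC.H49
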