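import Pool.Agent.TTC.StmtsG
import Pool.Agent.Helper51_TTC.NA6

set_option autoImplicit false

/-!
# Squad TTC, row NA7: naturality of `e7` (helper49)
-/

namespace Pool.Agent.TTC.H49

open Polynomial NumberField

theorem r6_map {R S : Type} [CommRing R] [CommRing S] (φ : R →+* S) (a : Fin 7 → R) (m : ℕ) :
    r6 m (fun i => φ (a i)) = φ (r6 m a) := by
  have h := resultant_map_map (derivative (sext a))
    (derivative (derivative (sext a)) + C (m : R) * sext a) 5 6 φ
  have e1 : (derivative (sext a)).map φ = derivative (sext (fun i => φ (a i))) := by
    rw [H51.sext_map, derivative_map]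
  have e2 : (derivative (derivative (sext a)) + C (m : R) * sext a).map φ =
      derivative (derivative (sext (fun i => φ (a i)))) + C (m : S) * sext (fun i => φ (a i)) := by
    rw [H51.sext_map, Polynomial.map_add, Polynomial.map_mul, Polynomial.map_C, map_natCast,
      derivative_map, derivative_map]
  rw [e1, e2] at h
  exact h

/-- Row NA7. -/
theorem na7 : Na7Stmt := by
  intro R S _ _ φ a j m
  simp only [e7, H51.crit_map, coeff_map, r6_map, map_mul, map_add, map_natCast, map_ofNat]

end Pool.Agent.TTC.H49
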